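import Pool.Agent.U527.Et.MAmp
import Pool.Agent.U527.Et.Fix

set_option autoImplicit false

/-!
# Commuting maps: convergence along one polynomial implies convergence along the integers

`Conv P μ T f`: the averages over `1 ≤ n ≤ N` of `∏ f_j(T_j^(P(n)) x)` converge for almost every `x`. `Comm m P`: this is
true for all families of `m + 1` commuting invertible measure preserving maps `T_0, ..., T_m` of a probability space and
all `f_j` in `L^∞`. `Comm m X` (that is, `P(n) = n`) is the linear case of the problem, a famous open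
question already for two maps. `Pol d P`: `P` is an integer polynomial of degree in `[1, d]` with positive leading
coefficient; `bnd d = 1 - 1 / (d 2^(4 d + 6)) < 1`. For commuting flows `τ_0, ..., τ_m` and a time `a > 0`, `Good P μ τ a`:
for the maps `τ_j(a)` the averages along `P` converge almost everywhere for all `f_j` in `L^∞`.

1. If the averages along `P(n) = n` diverge for some commuting maps and some `f_j`, then there are commuting flows such
   that the set of the times `a > 0` with `Good P μ τ a` for SOME `P` of degree in `[1, d]` has Hausdorff dimension at most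
   `bnd d`. There are fixed functions in `L^∞`, the same for all times and all `P`, whose averages along all `P` diverge at
   all times but a set of dimension at most `bnd d`, by Bourgain's theorem for one function.
2. If for all commuting flows the times `a > 0` with `Good P μ τ a` for some `P` of degree in `[1, d]` (it may depend on the
   time) form a set of dimension larger than `bnd d`, then `Comm m X` is true (no hypothesis).
3. `Comm m P → Comm m X` for every `P` (no hypothesis): the problem for commuting maps along the squares, or along any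
   other polynomial, is at least as hard as the linear one.
4. By Bourgain's theorem for one function along `P`, `Comm m X` is equivalent to: for all commuting flows and all `f_j` the
   averages along `P` for the maps `τ_j(a)` converge almost everywhere at all times `a > 0` outside of a set of dimension
   at most `bnd d`; and to: they do so at a set of times of dimension larger than `bnd d`.

Proof. For flows, fixed `f_j` and all times `a > 0` outside of a set of dimension at most `bnd d`, the averages along `P`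
converge if and only if the averages over `[0, V]` of `∏ f_j(τ_j(v) x)` do (`Pool.Agent.U527.Et.main_fix`, the tool of the
hand-in `ExceptionalPolynomialTimes` of `MP_4d8f14_an`). For commuting maps `T_j` with divergent averages let
`τ_j(t)(s, x) = (s + t e_j, T_j^k x)` on `[0, 1)^(m+1) × X`, where `s_j + t` is reduced modulo one and `k` is its integer
part: these are commuting flows. With a window for `s_0` in the first function the continuous averages of the suspension
give the discrete averages of the maps (`Pool.Agent.U527.Et.mdisc`), so that they diverge as well. The one function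
theorem, which is needed in the first step, is a special case of the hypotheses in 2 and 3.
-/

namespace Pool.Agent.Results.MP_d464d9_an.LinearFromPolynomial

open MeasureTheory Filter Finset
open scoped ENNReal

universe u

/-- a measurable measure preserving flow -/
structure IsFlow {X : Type u} [MeasurableSpace X] (μ : Measure X) (τ : ℝ → X → X) : Prop where
  meas : Measurable (fun p : ℝ × X => τ p.1 p.2)
  zero : ∀ x, τ 0 x = x
  add : ∀ s t x, τ (s + t) x = τ s (τ t x)
  mp : ∀ t, MeasurePreserving (τ t) μ μ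

/-- commuting flows -/
def CommFlows {X : Type u} [MeasurableSpace X] (μ : Measure X) {m : ℕ} (τ : Fin (m + 1) → ℝ → X → X) : Prop :=
  (∀ j, IsFlow μ (τ j)) ∧ ∀ i j t s x, τ i t (τ j s x) = τ j s (τ i t x)

/-- measurable and essentially bounded -/
def Linf {X : Type u} [MeasurableSpace X] (μ : Measure X) (f : X → ℂ) : Prop :=
  AEStronglyMeasurable f μ ∧ ∃ C : ℝ, ∀ᵐ x ∂μ, ‖f x‖ ≤ C

/-- integer powers of an invertible map -/
def pw {X : Type u} [MeasurableSpace X] (T : X ≃ᵐ X) (k : ℤ) (x : X) : X := ((T.toEquiv : Equiv.Perm X) ^ k) x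

/-- almost everywhere convergence of the averages of `∏ f_j(T_j^(P(n)) x)` -/
def Conv (P : Polynomial ℤ) {X : Type u} [MeasurableSpace X] (μ : Measure X) {m : ℕ} (T : Fin (m + 1) → X ≃ᵐ X)
    (f : Fin (m + 1) → X → ℂ) : Prop :=
  ∀ᵐ x ∂μ, ∃ L : ℂ, Tendsto (fun N : ℕ => (1 / (N : ℂ)) * ∑ n ∈ Icc 1 N, ∏ j, f j (pw (T j) (P.eval (n : ℤ)) x))
    atTop (nhds L)

/-- the averages along `P` converge for all families of `m + 1` commuting maps and all functions -/
def Comm (m : ℕ) (P : Polynomial ℤ) : Prop := ∀ (X : Type u) [MeasurableSpace X] (μ : Measure X)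
  [IsProbabilityMeasure μ] (T : Fin (m + 1) → X ≃ᵐ X), (∀ j, MeasurePreserving (T j) μ μ) →
    (∀ i j x, T i (T j x) = T j (T i x)) → ∀ f : Fin (m + 1) → X → ℂ, (∀ j, Linf μ (f j)) → Conv P μ T f

/-- the pointwise ergodic theorem along `P` for one function in `L^∞` (Bourgain's theorem) -/
def OneFunction (P : Polynomial ℤ) : Prop := ∀ (X : Type u) [MeasurableSpace X] (μ : Measure X)
  [IsProbabilityMeasure μ] (T : X ≃ᵐ X), MeasurePreserving T μ μ → ∀ f : X → ℂ, Linf μ f → ∀ᵐ x ∂μ, ∃ L : ℂ,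
    Tendsto (fun N : ℕ => (1 / (N : ℂ)) * ∑ n ∈ Icc 1 N, f (pw T (P.eval (n : ℤ)) x)) atTop (nhds L)

/-- almost everywhere convergence of the averages along `P` for the maps `τ_j(a)`: the power of `τ_j(a)` with exponent
`k` is `τ_j(a k)` -/
def ConvAt (P : Polynomial ℤ) {X : Type u} [MeasurableSpace X] (μ : Measure X) {m : ℕ}
    (τ : Fin (m + 1) → ℝ → X → X) (a : ℝ) (f : Fin (m + 1) → X → ℂ) : Prop :=
  ∀ᵐ x ∂μ, ∃ L : ℂ, Tendsto (fun N : ℕ => (1 / (N : ℂ)) * ∑ n ∈ Icc 1 N,
    ∏ j, f j (τ j (a * ((P.eval (n : ℤ) : ℤ) : ℝ)) x)) atTop (nhds L)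

/-- the averages along `P` for the maps `τ_j(a)` converge almost everywhere for all functions in `L^∞` -/
def Good (P : Polynomial ℤ) {X : Type u} [MeasurableSpace X] (μ : Measure X) {m : ℕ} (τ : Fin (m + 1) → ℝ → X → X)
    (a : ℝ) : Prop :=
  ∀ f : Fin (m + 1) → X → ℂ, (∀ j, Linf μ (f j)) → ConvAt P μ τ a f

/-- degree in `[1, d]` and positive leading coefficient -/
def Pol (d : ℕ) (P : Polynomial ℤ) : Prop := 0 < P.natDegree ∧ P.natDegree ≤ d ∧ 0 < P.leadingCoeff

/-- a dimension less than one (for `d ≥ 1`) -/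
noncomputable def bnd (d : ℕ) : ℝ≥0∞ := ENNReal.ofReal (1 - 1 / (d * 2 ^ (4 * d + 6) : ℝ))

/-- a statement about all families of `m + 1` commuting flows on probability spaces and all functions in `L^∞` -/
def AllFlows (m : ℕ) (Q : ∀ (X : Type u) [MeasurableSpace X], Measure X → (Fin (m + 1) → ℝ → X → X) →
    (Fin (m + 1) → X → ℂ) → Prop) : Prop :=
  ∀ (X : Type u) [MeasurableSpace X] (μ : Measure X) [IsProbabilityMeasure μ] (τ : Fin (m + 1) → ℝ → X → X),
    CommFlows μ τ → ∀ f : Fin (m + 1) → X → ℂ, (∀ j, Linf μ (f j)) → Q X μ τ f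

/-- almost everywhere convergence of the continuous averages -/
def ConvCont {X : Type u} [MeasurableSpace X] (μ : Measure X) {m : ℕ} (τ : Fin (m + 1) → ℝ → X → X)
    (f : Fin (m + 1) → X → ℂ) : Prop :=
  ∀ᵐ x ∂μ, ∃ L : ℂ, Tendsto (fun V : ℝ => (1 / (V : ℂ)) * ∫ v in (0 : ℝ)..V, ∏ j, f j (τ j v x)) atTop (nhds L)

lemma flow_of {X : Type u} [MeasurableSpace X] {μ : Measure X} {τ : ℝ → X → X} (h : IsFlow μ τ) :
    Pool.Agent.Y957.MC.IsFlow μ τ := ⟨h.meas, h.zero, h.add, h.mp⟩

lemma of_flow {X : Type u} [MeasurableSpace X] {μ : Measure X} {τ : ℝ → X → X}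
    (h : Pool.Agent.Y957.MC.IsFlow μ τ) : IsFlow μ τ := ⟨h.meas, h.zero, h.add, h.mp⟩

lemma bnd_eq (d : ℕ) : Pool.Agent.U527.Et.dm d = bnd d := by
  unfold Pool.Agent.U527.Et.dm bnd
  congr 2
  push_cast
  rfl

lemma bnd_lt {d : ℕ} (hd : 0 < d) : bnd d < 1 := by
  unfold bnd
  rw [← ENNReal.ofReal_one]
  refine (ENNReal.ofReal_lt_ofReal_iff one_pos).2 ?_
  have hd' : (0 : ℝ) < d := by exact_mod_cast hd
  have : (0 : ℝ) < 1 / (d * 2 ^ (4 * d + 6) : ℝ) := by positivity
  linarith

lemma dimH_Ioi : dimH (Set.Ioi (0 : ℝ)) = 1 := by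
  have h := Real.dimH_of_nonempty_interior (E := ℝ) (s := Set.Ioi (0 : ℝ)) (by
    rw [interior_Ioi]
    exact ⟨1, by norm_num⟩)
  rw [h]
  simp

/-- a time map -/
def tm {X : Type u} [MeasurableSpace X] {μ : Measure X} {S : ℝ → X → X} (hS : IsFlow μ S) (a : ℝ) : X ≃ᵐ X :=
  { toFun := S a
    invFun := S (-a)
    left_inv := fun x => by rw [← hS.add, neg_add_cancel, hS.zero]
    right_inv := fun x => by rw [← hS.add, add_neg_cancel, hS.zero]
    measurable_toFun := (hS.mp a).measurable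
    measurable_invFun := (hS.mp (-a)).measurable }

lemma pw_nat {X : Type u} [MeasurableSpace X] (T : X ≃ᵐ X) (n : ℕ) (x : X) : pw T (n : ℤ) x = T^[n] x := by
  unfold pw
  rw [zpow_natCast, ← Equiv.Perm.iterate_eq_pow]
  rfl

lemma pw_tm {X : Type u} [MeasurableSpace X] {μ : Measure X} {S : ℝ → X → X} (hS : IsFlow μ S) (a : ℝ) (k : ℤ)
    (x : X) : pw (tm hS a) k x = S (a * k) x := by
  have h1 : ∀ (n : ℕ) (y : X), ((((tm hS a).toEquiv : Equiv.Perm X) ^ n : Equiv.Perm X)) y = S (a * n) y := by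
    intro n y
    rw [← Equiv.Perm.iterate_eq_pow]
    exact Pool.Agent.U587.ET.iter_flow hS.zero hS.add a n y
  unfold pw
  cases k with
  | ofNat n =>
    have := h1 n x
    simpa using this
  | negSucc n =>
    rw [zpow_negSucc, Equiv.Perm.inv_def, Equiv.symm_apply_eq, h1, ← hS.add]
    have : a * ((n + 1 : ℕ) : ℝ) + a * ((Int.negSucc n : ℤ) : ℝ) = 0 := by
      rw [Int.cast_negSucc]
      push_cast
      ring
    rw [this, hS.zero]

lemma eval_real (P : Polynomial ℤ) (n : ℕ) : (P.map (Int.castRingHom ℝ)).eval (n : ℝ) =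
    ((P.eval (n : ℤ) : ℤ) : ℝ) := by
  have h := Polynomial.eval_intCast_map (Int.castRingHom ℝ) P (n : ℤ)
  rw [Int.cast_natCast] at h
  exact h

lemma iff_of {X : Type u} [MeasurableSpace X] {μ : Measure X} {m : ℕ} {τ : Fin (m + 1) → ℝ → X → X}
    {f : Fin (m + 1) → X → ℂ} {P : Polynomial ℤ} {a : ℝ} (h2 : ∀ᵐ x ∂μ, ∀ L : ℂ,
      Tendsto (fun N : ℕ => Pool.Agent.U527.Et.di (P.map (Int.castRingHom ℝ)) (fun v => ∏ j, f j (τ j v x)) a N)
        atTop (nhds L) ↔
      Tendsto (fun V : ℝ => Pool.Agent.U527.Et.ci (fun v => ∏ j, f j (τ j v x)) V) atTop (nhds L)) :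
    ConvAt P μ τ a f ↔ ConvCont μ τ f := by
  unfold Pool.Agent.U527.Et.di Pool.Agent.U527.Et.ci at h2
  simp only [eval_real] at h2
  constructor
  · intro hc
    filter_upwards [hc, h2] with x hx hx2
    obtain ⟨L, hL⟩ := hx
    exact ⟨L, (hx2 L).1 hL⟩
  · intro hc
    filter_upwards [hc, h2] with x hx hx2
    obtain ⟨L, hL⟩ := hx
    exact ⟨L, (hx2 L).2 hL⟩

lemma real_pol {P : Polynomial ℤ} {d : ℕ} (hP : Pol d P) : (P.map (Int.castRingHom ℝ)).natDegree = P.natDegree ∧
    0 < (P.map (Int.castRingHom ℝ)).leadingCoeff := by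
  refine ⟨Polynomial.natDegree_map_eq_of_injective Int.cast_injective P, ?_⟩
  rw [Polynomial.leadingCoeff_map_of_injective Int.cast_injective]
  have : (0 : ℝ) < ((P.leadingCoeff : ℤ) : ℝ) := by exact_mod_cast hP.2.2
  exact this

/-- the comparison with the continuous averages -/
lemma core {X : Type u} [MeasurableSpace X] {μ : Measure X} [IsProbabilityMeasure μ] {m : ℕ}
    {τ : Fin (m + 1) → ℝ → X → X} (hτ : ∀ j, IsFlow μ (τ j)) {f : Fin (m + 1) → X → ℂ} (hf : ∀ j, Linf μ (f j))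
    {P : Polynomial ℤ} {d : ℕ} (hP : Pol d P) : ∃ D : Set ℝ, dimH D ≤ bnd d ∧ ∀ a : ℝ, 0 < a → a ∉ D →
      (∀ j, Pool.Agent.U587.DX.Sg μ (τ j) (P.map (Int.castRingHom ℝ)) a) →
      (ConvAt P μ τ a f ↔ ConvCont μ τ f) := by
  obtain ⟨hdeg, hlead⟩ := real_pol hP
  obtain ⟨D, hD, hDa⟩ := Pool.Agent.U527.Et.main_fix (μ := μ) (fun j => flow_of (hτ j)) (P.map (Int.castRingHom ℝ))
    (by rw [hdeg]; exact hP.1) hlead (f := f) (fun j => (hf j).1) (fun j => (hf j).2)
  refine ⟨D, ?_, fun a ha0 haD hSg => iff_of (hDa a ha0 haD hSg)⟩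
  rw [← bnd_eq]
  rw [hdeg] at hD
  exact hD.trans (Pool.Agent.U527.Et.dm_mono hP.2.1 hP.1)

lemma re_lim {u : ℕ → ℝ} {L : ℂ} (h : Tendsto (fun N : ℕ => (1 / (N : ℂ)) * ∑ n ∈ Icc 1 N, ((u n : ℝ) : ℂ)) atTop
    (nhds L)) : Tendsto (fun N : ℕ => (1 / (N : ℝ)) * ∑ n ∈ Icc 1 N, u n) atTop (nhds L.re) := by
  refine ((Complex.continuous_re.tendsto L).comp h).congr fun N => ?_
  simp only [Function.comp]
  rw [show (1 / (N : ℂ)) * ∑ n ∈ Icc 1 N, ((u n : ℝ) : ℂ) = (((1 / (N : ℝ)) * ∑ n ∈ Icc 1 N, u n : ℝ) : ℂ) by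
    push_cast; rfl, Complex.ofReal_re]

lemma linf_one {X : Type u} [MeasurableSpace X] {μ : Measure X} : Linf μ (fun _ => 1) :=
  ⟨aestronglyMeasurable_const, 1, ae_of_all _ fun _ => by simp⟩

lemma linf_real {X : Type u} [MeasurableSpace X] {μ : Measure X} {k : X → ℝ} (hk : Measurable k)
    (hb : ∃ C : ℝ, ∀ x, |k x| ≤ C) : Linf μ (fun x => ((k x : ℝ) : ℂ)) := by
  obtain ⟨C, hC⟩ := hb
  exact ⟨(Complex.measurable_ofReal.comp hk).aestronglyMeasurable, C,
    ae_of_all _ fun x => by rw [Complex.norm_real]; exact hC x⟩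

/-- the one function theorem from the averages of products -/
lemma sg_of_good {X : Type u} [MeasurableSpace X] {μ : Measure X} {m : ℕ} {τ : Fin (m + 1) → ℝ → X → X}
    {P : Polynomial ℤ} {a : ℝ} (hc : Good P μ τ a) (j : Fin (m + 1)) :
    Pool.Agent.U587.DX.Sg μ (τ j) (P.map (Int.castRingHom ℝ)) a := by
  classical
  intro k hk hkb
  have hK := linf_real (μ := μ) hk hkb
  have h1 := linf_one (μ := μ)
  simp only [eval_real]
  filter_upwards [hc (fun i => if i = j then fun x => ((k x : ℝ) : ℂ) else fun _ => 1) (fun i => by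
    by_cases hi : i = j
    · simp only [hi, if_true]
      exact hK
    · simp only [hi, if_false]
      exact h1)] with x hx
  obtain ⟨L, hL⟩ := hx
  refine ⟨L.re, re_lim (hL.congr fun N => ?_)⟩
  congr 1
  refine sum_congr rfl fun n _ => ?_
  rw [Finset.prod_eq_single j]
  · simp
  · intro i _ hi
    simp [hi]
  · intro h
    exact absurd (Finset.mem_univ j) h

/-- the one function theorem at all times -/
lemma sg_of_one {X : Type u} [MeasurableSpace X] {μ : Measure X} [IsProbabilityMeasure μ] {S : ℝ → X → X}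
    (hS : IsFlow μ S) {P : Polynomial ℤ} (h1 : OneFunction.{u} P) (a : ℝ) :
    Pool.Agent.U587.DX.Sg μ S (P.map (Int.castRingHom ℝ)) a := by
  intro k hk hkb
  have hK := linf_real (μ := μ) hk hkb
  filter_upwards [h1 X μ (tm hS a) (hS.mp _) _ hK] with x hx
  obtain ⟨L, hL⟩ := hx
  refine ⟨L.re, re_lim (hL.congr fun N => ?_)⟩
  congr 1
  refine sum_congr rfl fun n _ => ?_
  rw [pw_tm, eval_real]

lemma conv_tm {X : Type u} [MeasurableSpace X] {μ : Measure X} {m : ℕ} {τ : Fin (m + 1) → ℝ → X → X}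
    (hτ : ∀ j, IsFlow μ (τ j)) {P : Polynomial ℤ} {a : ℝ} {f : Fin (m + 1) → X → ℂ}
    (hc : Conv P μ (fun j => tm (hτ j) a) f) : ConvAt P μ τ a f := by
  filter_upwards [hc] with x hx
  obtain ⟨L, hL⟩ := hx
  refine ⟨L, hL.congr fun N => ?_⟩
  congr 1
  refine sum_congr rfl fun n _ => Finset.prod_congr rfl fun j _ => ?_
  rw [pw_tm]

lemma good_of_comm {X : Type u} [MeasurableSpace X] {μ : Measure X} [IsProbabilityMeasure μ] {m : ℕ}
    {τ : Fin (m + 1) → ℝ → X → X} (hτ : CommFlows μ τ) {P : Polynomial ℤ} (hC : Comm.{u} m P) (a : ℝ) :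
    Good P μ τ a := fun f hf =>
  conv_tm hτ.1 (hC X μ (fun j => tm (hτ.1 j) a) (fun j => (hτ.1 j).mp a) (fun i j x => hτ.2 i j a a x) f hf)

lemma conv_X {X : Type u} [MeasurableSpace X] {μ : Measure X} {m : ℕ} {T : Fin (m + 1) → X ≃ᵐ X}
    {f : Fin (m + 1) → X → ℂ} :
    Conv Polynomial.X μ T f ↔ ∀ᵐ x ∂μ, ∃ L : ℂ, Tendsto (fun N : ℕ => (1 / (N : ℂ)) * ∑ n ∈ Icc 1 N,
      ∏ j, f j ((T j)^[n] x)) atTop (nhds L) := by
  have hp : ∀ (n : ℕ) (x : X), ∏ j, f j (pw (T j) (Polynomial.X.eval (n : ℤ)) x) = ∏ j, f j ((T j)^[n] x) := by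
    intro n x
    refine Finset.prod_congr rfl fun j _ => ?_
    rw [Polynomial.eval_X, pw_nat]
  unfold Conv
  simp only [hp]

/-- divergent commuting maps give commuting flows with divergent continuous averages -/
lemma susp_key {X : Type u} [MeasurableSpace X] {μ : Measure X} [IsProbabilityMeasure μ] {m : ℕ}
    {T : Fin (m + 1) → X ≃ᵐ X} (hT : ∀ j, MeasurePreserving (T j) μ μ) (hTc : ∀ i j x, T i (T j x) = T j (T i x))
    {f : Fin (m + 1) → X → ℂ} (hf : ∀ j, Linf μ (f j)) (hbad : ¬ Conv Polynomial.X μ T f) :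
    ∃ (ν : Measure ((Fin (m + 1) → ℝ) × X))
      (τ : Fin (m + 1) → ℝ → (Fin (m + 1) → ℝ) × X → (Fin (m + 1) → ℝ) × X)
      (F : Fin (m + 1) → (Fin (m + 1) → ℝ) × X → ℂ),
      IsProbabilityMeasure ν ∧ CommFlows ν τ ∧ (∀ j, Linf ν (F j)) ∧ ¬ ConvCont ν τ F := by
  choose f' hf'm hf'b hff' using fun j => Pool.Agent.Y957.MC.exists_version (hf j).1 (hf j).2
  choose Cf hCf using hf'b
  obtain ⟨C, hC⟩ : ∃ C, C = ∑ j, |Cf j| := ⟨_, rfl⟩
  have hC0 : 0 ≤ C := by rw [hC]; exact Finset.sum_nonneg fun j _ => abs_nonneg _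
  have b1 : ∀ j x, ‖f' j x‖ ≤ C := fun j x => by
    have h1 := (hCf j x).trans (le_abs_self _)
    have h2 : |Cf j| ≤ ∑ j, |Cf j| :=
      Finset.single_le_sum (f := fun j => |Cf j|) (fun i _ => abs_nonneg _) (Finset.mem_univ j)
    rw [hC]
    exact h1.trans h2
  refine ⟨(Pool.Agent.U527.Et.mlam m).prod μ, Pool.Agent.U527.Et.msusp T, Pool.Agent.U527.Et.mF f', inferInstance,
    ⟨fun j => of_flow (Pool.Agent.U527.Et.msusp_flow hT j), fun i j t s x =>
      Pool.Agent.U527.Et.msusp_comm hTc i j t s x⟩,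
    fun j => ⟨(Pool.Agent.U527.Et.mF_meas hf'm j).aestronglyMeasurable, C,
      ae_of_all _ (Pool.Agent.U527.Et.mF_bd hC0 b1 j)⟩, fun hcont => hbad ?_⟩
  have h2 := Pool.Agent.U527.Et.mkey hT hf'm hC0 b1 hcont
  have hk : ∀ᵐ x ∂μ, ∀ (j : Fin (m + 1)) (n : ℕ), f j ((T j)^[n] x) = f' j ((T j)^[n] x) := by
    rw [ae_all_iff]
    intro j
    rw [ae_all_iff]
    intro n
    exact ((hT j).iterate n).quasiMeasurePreserving.ae (hff' j)
  rw [conv_X]
  filter_upwards [h2, hk] with x hx hx2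
  obtain ⟨L, hL⟩ := hx
  refine ⟨L, hL.congr fun N => ?_⟩
  congr 1
  refine sum_congr rfl fun n _ => Finset.prod_congr rfl fun j _ => (hx2 j n).symm

lemma countable_intPoly : Countable (Polynomial ℤ) := by
  have h : Function.Injective (fun p : Polynomial ℤ => (List.ofFn fun i : Fin (p.natDegree + 1) => p.coeff i)) := by
    intro p q hpq
    simp only at hpq
    have h1 := congrArg List.length hpq
    simp only [List.length_ofFn] at h1
    ext n
    by_cases hn : n < p.natDegree + 1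
    · have h2 : (List.ofFn fun i : Fin (p.natDegree + 1) => p.coeff i)[n]? =
        (List.ofFn fun i : Fin (q.natDegree + 1) => q.coeff i)[n]? := by rw [hpq]
      have hn' : n < q.natDegree + 1 := by omega
      rw [List.getElem?_eq_getElem (by simpa using hn), List.getElem?_eq_getElem (by simpa using hn')] at h2
      simpa only [Option.some.injEq, List.getElem_ofFn] using h2
    · rw [Polynomial.coeff_eq_zero_of_natDegree_lt (by omega), Polynomial.coeff_eq_zero_of_natDegree_lt (by omega)]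
  exact h.countable

/-- the exceptional set of all polynomials for functions with divergent continuous averages -/
lemma core_all {X : Type u} [MeasurableSpace X] {μ : Measure X} [IsProbabilityMeasure μ] {m : ℕ}
    {τ : Fin (m + 1) → ℝ → X → X} (hτ : ∀ j, IsFlow μ (τ j)) {f : Fin (m + 1) → X → ℂ} (hf : ∀ j, Linf μ (f j))
    (hc : ¬ ConvCont μ τ f) (d : ℕ) : ∃ D : Set ℝ, dimH D ≤ bnd d ∧ ∀ a : ℝ, 0 < a → a ∉ D → ∀ P, Pol d P →
      (∀ j, Pool.Agent.U587.DX.Sg μ (τ j) (P.map (Int.castRingHom ℝ)) a) → ¬ ConvAt P μ τ a f := by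
  have := countable_intPoly
  choose D hD hDa using fun P : {P : Polynomial ℤ // Pol d P} => core hτ hf P.2
  refine ⟨⋃ P, D P, ?_, fun a ha0 haD P hP hSg hcon => ?_⟩
  · rw [dimH_iUnion]
    exact iSup_le hD
  · rw [Set.mem_iUnion, not_exists] at haD
    exact hc ((hDa ⟨P, hP⟩ a ha0 (haD _) hSg).1 hcon)

lemma pol_X : Pol 1 Polynomial.X :=
  ⟨by rw [Polynomial.natDegree_X]; norm_num, by rw [Polynomial.natDegree_X], by
    rw [Polynomial.leadingCoeff_X]; norm_num⟩

lemma not_cover {D D' : Set ℝ} {d : ℕ} (hd : 0 < d) (hD : dimH D ≤ bnd d) (hD' : dimH D' ≤ bnd d) :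
    ¬ Set.Ioi (0 : ℝ) ⊆ D ∪ D' := by
  intro hsub
  have h1 := dimH_mono hsub
  rw [dimH_union, dimH_Ioi] at h1
  exact absurd (h1.trans (max_le hD hD')) (not_le.2 (bnd_lt hd))

/-- **Commuting maps: averages along the integers and along a polynomial.** -/
theorem result (m : ℕ) :
    (∀ (X : Type u) [MeasurableSpace X] (μ : Measure X) [IsProbabilityMeasure μ] (T : Fin (m + 1) → X ≃ᵐ X),
      (∀ j, MeasurePreserving (T j) μ μ) → (∀ i j x, T i (T j x) = T j (T i x)) →
      ∀ f : Fin (m + 1) → X → ℂ, (∀ j, Linf μ (f j)) → ¬ Conv Polynomial.X μ T f →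
      ∃ (ν : Measure ((Fin (m + 1) → ℝ) × X))
        (τ : Fin (m + 1) → ℝ → (Fin (m + 1) → ℝ) × X → (Fin (m + 1) → ℝ) × X)
        (F : Fin (m + 1) → (Fin (m + 1) → ℝ) × X → ℂ),
        IsProbabilityMeasure ν ∧ CommFlows ν τ ∧ (∀ j, Linf ν (F j)) ∧ ∀ d : ℕ, 0 < d →
          dimH {a : ℝ | 0 < a ∧ ∃ P, Pol d P ∧ Good P ν τ a} ≤ bnd d ∧
          ((∀ P, Pol d P → OneFunction.{u} P) →
            dimH {a : ℝ | 0 < a ∧ ∃ P, Pol d P ∧ ConvAt P ν τ a F} ≤ bnd d)) ∧
    (∀ d : ℕ, 0 < d →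
      (∀ (X : Type u) [MeasurableSpace X] (μ : Measure X) [IsProbabilityMeasure μ] (τ : Fin (m + 1) → ℝ → X → X),
        CommFlows μ τ → bnd d < dimH {a : ℝ | 0 < a ∧ ∃ P, Pol d P ∧ Good P μ τ a}) → Comm.{u} m Polynomial.X) ∧
    (∀ d P, Pol d P → Comm.{u} m P → Comm.{u} m Polynomial.X) ∧
    (∀ d P, Pol d P → OneFunction.{u} P →
      [Comm.{u} m Polynomial.X,
        AllFlows.{u} m fun _ _ μ τ f => dimH {a : ℝ | 0 < a ∧ ¬ ConvAt P μ τ a f} ≤ bnd d,
        AllFlows.{u} m fun _ _ μ τ f => bnd d < dimH {a : ℝ | 0 < a ∧ ConvAt P μ τ a f}].TFAE) := by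
  have key : ∀ d : ℕ, 0 < d →
      (∀ (X : Type u) [MeasurableSpace X] (μ : Measure X) [IsProbabilityMeasure μ] (τ : Fin (m + 1) → ℝ → X → X),
        CommFlows μ τ → bnd d < dimH {a : ℝ | 0 < a ∧ ∃ P, Pol d P ∧ Good P μ τ a}) → Comm.{u} m Polynomial.X := by
    intro d hd hC X _ μ _ T hT hTc f hf
    by_contra hbad
    obtain ⟨ν, τ, F, hν, hτ, hF, hcont⟩ := susp_key hT hTc hf hbad
    obtain ⟨D, hD, hDa⟩ := core_all hτ.1 hF hcont d
    refine absurd (hC _ ν τ hτ) (not_lt.2 ((dimH_mono ?_).trans hD))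
    rintro a ⟨ha0, P, hP, ha⟩
    by_contra haD
    exact hDa a ha0 haD P hP (sg_of_good ha) (ha F hF)
  refine ⟨?_, key, ?_, ?_⟩
  · intro X _ μ _ T hT hTc f hf hbad
    obtain ⟨ν, τ, F, hν, hτ, hF, hcont⟩ := susp_key hT hTc hf hbad
    refine ⟨ν, τ, F, hν, hτ, hF, fun d hd => ?_⟩
    obtain ⟨D, hD, hDa⟩ := core_all hτ.1 hF hcont d
    constructor
    · refine (dimH_mono ?_).trans hD
      rintro a ⟨ha0, P, hP, ha⟩
      by_contra haD
      exact hDa a ha0 haD P hP (sg_of_good ha) (ha F hF)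
    · intro hone
      refine (dimH_mono ?_).trans hD
      rintro a ⟨ha0, P, hP, ha⟩
      by_contra haD
      exact hDa a ha0 haD P hP (fun j => sg_of_one (hτ.1 j) (hone P hP) a) ha
  · intro d P hP hC
    have hd : 0 < d := hP.1.trans_le hP.2.1
    refine key d hd fun X _ μ _ τ hτ => ?_
    by_contra hcon
    refine not_cover hd (not_lt.1 hcon) (D' := ∅) (by rw [dimH_empty]; exact zero_le) fun a ha => ?_
    exact Or.inl ⟨ha, P, hP, good_of_comm hτ hC a⟩
  · intro d P hP hone
    have hd : 0 < d := hP.1.trans_le hP.2.1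
    have h12 : Comm.{u} m Polynomial.X →
        AllFlows.{u} m fun _ _ μ τ f => dimH {a : ℝ | 0 < a ∧ ¬ ConvAt P μ τ a f} ≤ bnd d := by
      intro hQ X _ μ _ τ hτ f hf
      have hcont : ConvCont μ τ f := by
        obtain ⟨D, hD, hDa⟩ := core hτ.1 hf pol_X
        obtain ⟨a, ha0, haD⟩ : ∃ a : ℝ, 0 < a ∧ a ∉ D := by
          by_contra hne
          refine not_cover one_pos hD (D' := ∅) (by rw [dimH_empty]; exact zero_le) fun a ha => ?_
          by_contra haD
          rw [Set.union_empty] at haD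
          exact hne ⟨a, ha, haD⟩
        exact (hDa a ha0 haD (sg_of_good (good_of_comm hτ hQ a))).1 (good_of_comm hτ hQ a f hf)
      obtain ⟨D, hD, hDa⟩ := core hτ.1 hf hP
      refine (dimH_mono ?_).trans hD
      rintro a ⟨ha0, ha⟩
      by_contra haD
      exact ha ((hDa a ha0 haD (fun j => sg_of_one (hτ.1 j) hone a)).2 hcont)
    have h23 : (AllFlows.{u} m fun _ _ μ τ f => dimH {a : ℝ | 0 < a ∧ ¬ ConvAt P μ τ a f} ≤ bnd d) →
        AllFlows.{u} m fun _ _ μ τ f => bnd d < dimH {a : ℝ | 0 < a ∧ ConvAt P μ τ a f} := by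
      intro h2 X _ μ _ τ hτ f hf
      by_contra hcon
      refine not_cover hd (h2 X μ τ hτ f hf) (not_lt.1 hcon) fun a ha => ?_
      by_cases hc : ConvAt P μ τ a f
      · exact Or.inr ⟨ha, hc⟩
      · exact Or.inl ⟨ha, hc⟩
    have h31 : (AllFlows.{u} m fun _ _ μ τ f => bnd d < dimH {a : ℝ | 0 < a ∧ ConvAt P μ τ a f}) →
        Comm.{u} m Polynomial.X := by
      intro h3 X _ μ _ T hT hTc f hf
      by_contra hbad
      obtain ⟨ν, τ, F, hν, hτ, hF, hcont⟩ := susp_key hT hTc hf hbad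
      obtain ⟨D, hD, hDa⟩ := core hτ.1 hF hP
      refine absurd (h3 _ ν τ hτ F hF) (not_lt.2 ((dimH_mono ?_).trans hD))
      rintro a ⟨ha0, ha⟩
      by_contra haD
      exact hcont ((hDa a ha0 haD (fun j => sg_of_one (hτ.1 j) hone a)).1 ha)
    tfae_have 1 → 2 := h12
    tfae_have 2 → 3 := h23
    tfae_have 3 → 1 := h31
    tfae_finish

end Pool.Agent.Results.MP_d464d9_an.LinearFromPolynomial
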